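import Pool.Agent.R481.EX.Asy

/-!
# MP_39c14e_pr: the mixing time of exclusion in a ballistic random environment

The answer to Q1 is negative.  The definitions (module `Pool.Agent.R481.EX.Defs`):
* `Cfg N k`: the configurations of `k` particles on the sites `0, ..., N - 1`;
* `gen ω`: the generator matrix of the exclusion process in the environment `ω`;
* `law ω t η ξ`: the transition probability, an entry of the exponential of `t` times `gen ω`;
* `tmix k ω`: the mixing time, with values in `[0, ∞]`;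
* `mixProb μ N k a`: the probability that the mixing time is at most `a` when the `N` environment
  variables are independent with law `μ`.
-/

set_option autoImplicit false

namespace Pool.Agent.Results.MP_39c14e_pr.MixingTimeAlmostQuadratic

open MeasureTheory Filter Topology Pool.Agent.R481.EX

/-- There is a ballistic law of the environment such that, for all particle numbers of order `N`
with `N - k` of order `N`, the mixing time is at least `N ^ β` with probability tending to `1`, for
every `β < 2`; hence there are particle numbers `1 ≤ k N ≤ N - 1` for which, for every `C`,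
the probability that the mixing time is at most `C * N ^ (3 / 2)` tends to `0`,
and so does not tend to `1`. -/
theorem result : ∃ μ : Measure ℝ, IsEnv μ ∧ Ballistic μ ∧
    (∀ ε : ℝ, 0 < ε → ∀ k : ℕ → ℕ,
      (∀ᶠ N : ℕ in atTop, ε * N ≤ k N ∧ ε * N ≤ (N : ℝ) - k N) →
      ∀ β : ℝ, β < 2 → Tendsto (fun N : ℕ => mixProb μ N (k N) ((N : ℝ) ^ β)) atTop (𝓝 0)) ∧
    ∃ k : ℕ → ℕ, (∀ N, 2 ≤ N → 1 ≤ k N ∧ k N ≤ N - 1) ∧ ∀ C : ℝ,
      Tendsto (fun N : ℕ => mixProb μ N (k N) (C * (N : ℝ) ^ (3 / 2 : ℝ))) atTop (𝓝 0) ∧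
      ¬ Tendsto (fun N : ℕ => mixProb μ N (k N) (C * (N : ℝ) ^ (3 / 2 : ℝ))) atTop (𝓝 1) := by
  refine ⟨mu, mu_env, mu_ballistic, fun ε hε k hk β hβ => main_tendsto ε hε k hk β hβ,
    fun N => N / 2, fun N hN => ⟨(by omega : 1 ≤ N / 2), (by omega : N / 2 ≤ N - 1)⟩,
    fun C => ?_⟩
  have h : Tendsto (fun N : ℕ => mixProb mu N (N / 2) (C * (N : ℝ) ^ (3 / 2 : ℝ))) atTop
      (𝓝 0) := by
    refine three_half (1 / 4) (by norm_num) (fun N => N / 2) ?_ C
    filter_upwards [eventually_ge_atTop 2] with N hN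
    have h1 : ((N / 2 : ℕ) : ℝ) ≤ (N : ℝ) / 2 := Nat.cast_div_le
    have h2 : (N : ℝ) / 2 - 1 / 2 ≤ ((N / 2 : ℕ) : ℝ) := by
      have h3 : N ≤ 2 * (N / 2) + 1 := by omega
      have h4 : (N : ℝ) ≤ 2 * ((N / 2 : ℕ) : ℝ) + 1 := by exact_mod_cast h3
      linarith
    have h3 : (2 : ℝ) ≤ N := by exact_mod_cast hN
    constructor <;> linarith
  refine ⟨h, fun h1 => ?_⟩
  exact zero_ne_one (tendsto_nhds_unique h h1)

end Pool.Agent.Results.MP_39c14e_pr.MixingTimeAlmostQuadratic
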